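import Mathlib

set_option autoImplicit false

namespace Pool.Agent.H.MP_eb0abf_al

@[ext] structure B (k : Type) where
  (x y w a l c d ca cl ad cad : k)

namespace B

variable {k : Type} [Field k]

instance : Add (B k) := ⟨fun u v => ⟨u.x + v.x, u.y + v.y, u.w + v.w, u.a + v.a, u.l + v.l, u.c + v.c, u.d + v.d, u.ca + v.ca, u.cl + v.cl, u.ad + v.ad, u.cad + v.cad⟩⟩
instance : Neg (B k) := ⟨fun u => ⟨-u.x, -u.y, -u.w, -u.a, -u.l, -u.c, -u.d, -u.ca, -u.cl, -u.ad, -u.cad⟩⟩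
instance : Zero (B k) := ⟨⟨0, 0, 0, 0, 0, 0, 0, 0, 0, 0, 0⟩⟩
instance : One (B k) := ⟨⟨1, 1, 1, 0, 0, 0, 0, 0, 0, 0, 0⟩⟩
instance : Mul (B k) := ⟨fun u v => ⟨u.x * v.x,
  u.y * v.y,
  u.w * v.w,
  u.y * v.a + u.a * v.x,
  u.y * v.l + u.l * v.y,
  u.w * v.c + u.c * v.y,
  u.x * v.d + u.d * v.w,
  u.w * v.ca + u.c * v.a + u.ca * v.x,
  u.w * v.cl + u.c * v.l + u.cl * v.y,
  u.y * v.ad + u.a * v.d + u.ad * v.w,
  u.w * v.cad + u.c * v.ad + u.ca * v.d + u.cad * v.w⟩⟩

@[simp] lemma add_x (u v : B k) : (u + v).x = u.x + v.x := rfl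
@[simp] lemma neg_x (u : B k) : (-u).x = -u.x := rfl
@[simp] lemma zero_x : (0 : B k).x = 0 := rfl
@[simp] lemma one_x : (1 : B k).x = 1 := rfl
@[simp] lemma mul_x (u v : B k) : (u * v).x = u.x * v.x := rfl
@[simp] lemma add_y (u v : B k) : (u + v).y = u.y + v.y := rfl
@[simp] lemma neg_y (u : B k) : (-u).y = -u.y := rfl
@[simp] lemma zero_y : (0 : B k).y = 0 := rfl
@[simp] lemma one_y : (1 : B k).y = 1 := rfl
@[simp] lemma mul_y (u v : B k) : (u * v).y = u.y * v.y := rfl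
@[simp] lemma add_w (u v : B k) : (u + v).w = u.w + v.w := rfl
@[simp] lemma neg_w (u : B k) : (-u).w = -u.w := rfl
@[simp] lemma zero_w : (0 : B k).w = 0 := rfl
@[simp] lemma one_w : (1 : B k).w = 1 := rfl
@[simp] lemma mul_w (u v : B k) : (u * v).w = u.w * v.w := rfl
@[simp] lemma add_a (u v : B k) : (u + v).a = u.a + v.a := rfl
@[simp] lemma neg_a (u : B k) : (-u).a = -u.a := rfl
@[simp] lemma zero_a : (0 : B k).a = 0 := rfl
@[simp] lemma one_a : (1 : B k).a = 0 := rfl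
@[simp] lemma mul_a (u v : B k) : (u * v).a = u.y * v.a + u.a * v.x := rfl
@[simp] lemma add_l (u v : B k) : (u + v).l = u.l + v.l := rfl
@[simp] lemma neg_l (u : B k) : (-u).l = -u.l := rfl
@[simp] lemma zero_l : (0 : B k).l = 0 := rfl
@[simp] lemma one_l : (1 : B k).l = 0 := rfl
@[simp] lemma mul_l (u v : B k) : (u * v).l = u.y * v.l + u.l * v.y := rfl
@[simp] lemma add_c (u v : B k) : (u + v).c = u.c + v.c := rfl
@[simp] lemma neg_c (u : B k) : (-u).c = -u.c := rfl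
@[simp] lemma zero_c : (0 : B k).c = 0 := rfl
@[simp] lemma one_c : (1 : B k).c = 0 := rfl
@[simp] lemma mul_c (u v : B k) : (u * v).c = u.w * v.c + u.c * v.y := rfl
@[simp] lemma add_d (u v : B k) : (u + v).d = u.d + v.d := rfl
@[simp] lemma neg_d (u : B k) : (-u).d = -u.d := rfl
@[simp] lemma zero_d : (0 : B k).d = 0 := rfl
@[simp] lemma one_d : (1 : B k).d = 0 := rfl
@[simp] lemma mul_d (u v : B k) : (u * v).d = u.x * v.d + u.d * v.w := rfl
@[simp] lemma add_ca (u v : B k) : (u + v).ca = u.ca + v.ca := rfl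
@[simp] lemma neg_ca (u : B k) : (-u).ca = -u.ca := rfl
@[simp] lemma zero_ca : (0 : B k).ca = 0 := rfl
@[simp] lemma one_ca : (1 : B k).ca = 0 := rfl
@[simp] lemma mul_ca (u v : B k) : (u * v).ca = u.w * v.ca + u.c * v.a + u.ca * v.x := rfl
@[simp] lemma add_cl (u v : B k) : (u + v).cl = u.cl + v.cl := rfl
@[simp] lemma neg_cl (u : B k) : (-u).cl = -u.cl := rfl
@[simp] lemma zero_cl : (0 : B k).cl = 0 := rfl
@[simp] lemma one_cl : (1 : B k).cl = 0 := rfl
@[simp] lemma mul_cl (u v : B k) : (u * v).cl = u.w * v.cl + u.c * v.l + u.cl * v.y := rfl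
@[simp] lemma add_ad (u v : B k) : (u + v).ad = u.ad + v.ad := rfl
@[simp] lemma neg_ad (u : B k) : (-u).ad = -u.ad := rfl
@[simp] lemma zero_ad : (0 : B k).ad = 0 := rfl
@[simp] lemma one_ad : (1 : B k).ad = 0 := rfl
@[simp] lemma mul_ad (u v : B k) : (u * v).ad = u.y * v.ad + u.a * v.d + u.ad * v.w := rfl
@[simp] lemma add_cad (u v : B k) : (u + v).cad = u.cad + v.cad := rfl
@[simp] lemma neg_cad (u : B k) : (-u).cad = -u.cad := rfl
@[simp] lemma zero_cad : (0 : B k).cad = 0 := rfl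
@[simp] lemma one_cad : (1 : B k).cad = 0 := rfl
@[simp] lemma mul_cad (u v : B k) : (u * v).cad = u.w * v.cad + u.c * v.ad + u.ca * v.d + u.cad * v.w := rfl

instance : Ring (B k) := Ring.ofMinimalAxioms
  (fun _ _ _ => by ext <;> simp [add_assoc]) (fun _ => by ext <;> simp) (fun _ => by ext <;> simp)
  (fun _ _ _ => by ext <;> simp <;> ring) (fun _ => by ext <;> simp) (fun _ => by ext <;> simp)
  (fun _ _ _ => by ext <;> simp <;> ring) (fun _ _ _ => by ext <;> simp <;> ring)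

def sc : k →+* B k where
  toFun r := ⟨r, r, r, 0, 0, 0, 0, 0, 0, 0, 0⟩
  map_one' := rfl
  map_zero' := rfl
  map_mul' _ _ := by ext <;> simp
  map_add' _ _ := by ext <;> simp

instance : Algebra k (B k) := sc.toAlgebra' fun _ _ => by ext <;> simp [sc, mul_comm]

@[simp] lemma smul_x (r : k) (u : B k) : (r • u).x = r * u.x := by
  show (sc r * u).x = _
  simp [sc]
@[simp] lemma smul_y (r : k) (u : B k) : (r • u).y = r * u.y := by
  show (sc r * u).y = _
  simp [sc]
@[simp] lemma smul_w (r : k) (u : B k) : (r • u).w = r * u.w := by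
  show (sc r * u).w = _
  simp [sc]
@[simp] lemma smul_a (r : k) (u : B k) : (r • u).a = r * u.a := by
  show (sc r * u).a = _
  simp [sc]
@[simp] lemma smul_l (r : k) (u : B k) : (r • u).l = r * u.l := by
  show (sc r * u).l = _
  simp [sc]
@[simp] lemma smul_c (r : k) (u : B k) : (r • u).c = r * u.c := by
  show (sc r * u).c = _
  simp [sc]
@[simp] lemma smul_d (r : k) (u : B k) : (r • u).d = r * u.d := by
  show (sc r * u).d = _
  simp [sc]
@[simp] lemma smul_ca (r : k) (u : B k) : (r • u).ca = r * u.ca := by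
  show (sc r * u).ca = _
  simp [sc]
@[simp] lemma smul_cl (r : k) (u : B k) : (r • u).cl = r * u.cl := by
  show (sc r * u).cl = _
  simp [sc]
@[simp] lemma smul_ad (r : k) (u : B k) : (r • u).ad = r * u.ad := by
  show (sc r * u).ad = _
  simp [sc]
@[simp] lemma smul_cad (r : k) (u : B k) : (r • u).cad = r * u.cad := by
  show (sc r * u).cad = _
  simp [sc]

end B

end Pool.Agent.H.MP_eb0abf_al
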