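import Mathlib

set_option autoImplicit false

namespace Pool.Agent.H.MP_eb0abf_al

open FreeAlgebra Sum

variable (k : Type) [Field k] {V A : Type} [Fintype V] (s t : A → V)

/-- defining relations of the path algebra of the quiver with arrows `a : s a → t a` -/
inductive PRel : FreeAlgebra k (V ⊕ A) → FreeAlgebra k (V ⊕ A) → Prop
  | idem (v : V) : PRel (ι k (inl v) * ι k (inl v)) (ι k (inl v))
  | orth (v w : V) : v ≠ w → PRel (ι k (inl v) * ι k (inl w)) 0
  | one : PRel (∑ v, ι k (inl v)) 1
  | arr (a : A) : PRel (ι k (inl (t a)) * ι k (inr a) * ι k (inl (s a))) (ι k (inr a))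

/-- the path algebra -/
abbrev PathAlg := RingQuot (PRel k s t)

/-- trivial paths and arrows -/
noncomputable def gen (g : V ⊕ A) : PathAlg k s t := RingQuot.mkAlgHom k _ (ι k g)

/-- the ideal generated by the arrows -/
noncomputable def arrowIdeal : Submodule k (PathAlg k s t) :=
  Submodule.span k {z | ∃ u a v, z = u * gen k s t (inr a) * v}

/-- `N` is the kernel of a projective cover of `M` -/
def IsSyz {Λ : Type} [Ring Λ] (N M : ModuleCat.{0} Λ) : Prop :=
  ∃ (P : ModuleCat.{0} Λ) (i : N →ₗ[Λ] P) (p : P →ₗ[Λ] M), Module.Projective Λ P ∧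
    Module.Finite Λ P ∧ Function.Injective i ∧ Function.Surjective p ∧ Function.Exact i p ∧
    ∀ U : Submodule Λ P, U ⊔ LinearMap.ker p = ⊤ → U = ⊤

end Pool.Agent.H.MP_eb0abf_al
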