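import Mathlib
import Pool.Agent.H.MP_eb0abf_al.Defs
import Pool.Agent.H.MP_eb0abf_al.B

set_option autoImplicit false

namespace Pool.Agent.H.MP_eb0abf_al

open Sum CategoryTheory
open LinearMap hiding inl inr

section
variable {k : Type} [Field k] {V A : Type} [Fintype V] {s t : A → V}

lemma idem (v : V) : gen k s t (inl v) * gen k s t (inl v) = gen k s t (inl v) := by
  simpa [gen] using RingQuot.mkAlgHom_rel k (PRel.idem (k := k) (s := s) (t := t) v)
lemma orth {v w : V} (h : v ≠ w) : gen k s t (inl v) * gen k s t (inl w) = 0 := by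
  simpa [gen] using RingQuot.mkAlgHom_rel k (PRel.orth (k := k) (s := s) (t := t) v w h)
lemma one : ∑ v, gen k s t (inl v) = 1 := by
  simpa [gen] using RingQuot.mkAlgHom_rel k (PRel.one (k := k) (s := s) (t := t))
lemma arr (a : A) : gen k s t (inl (t a)) * gen k s t (inr a) * gen k s t (inl (s a)) =
    gen k s t (inr a) := by
  simpa [gen] using RingQuot.mkAlgHom_rel k (PRel.arr (k := k) (s := s) (t := t) a)

lemma top (z : PathAlg k s t) :
    z ∈ Submodule.span k (Set.range (gen k s t)) ⊔ arrowIdeal k s t ^ 2 := by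
  set T := Submodule.span k (Set.range (gen k s t)) ⊔ arrowIdeal k s t ^ 2
  have g : ∀ g, gen k s t g ∈ T := fun g => Submodule.mem_sup_left (Submodule.subset_span ⟨g, rfl⟩)
  have r : ∀ a, gen k s t (inr a) ∈ arrowIdeal k s t := fun a =>
    Submodule.subset_span ⟨1, a, 1, by simp⟩
  have l : ∀ z, ∀ u ∈ arrowIdeal k s t, z * u ∈ arrowIdeal k s t := fun z u hu => by
    have : arrowIdeal k s t ≤ (arrowIdeal k s t).comap (mulLeft k z) := Submodule.span_le.2 (by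
      rintro _ ⟨u, a, v, rfl⟩
      exact Submodule.subset_span ⟨z * u, a, v, by simp [mul_assoc]⟩)
    exact this hu
  have key : ∀ x, T ≤ T.comap (mulLeft k (gen k s t x)) := fun x => by
    refine sup_le (Submodule.span_le.2 ?_) ?_
    · rintro _ ⟨y, rfl⟩
      show gen k s t x * gen k s t y ∈ T
      rcases x with v | a <;> rcases y with w | b
      · by_cases e : v = w
        · rw [e, idem]; exact g _
        · rw [orth e]; exact zero_mem _
      · by_cases e : v = t b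
        · rw [← arr b, ← mul_assoc, ← mul_assoc, e, idem, arr]; exact g _
        · rw [← arr b, ← mul_assoc, ← mul_assoc, orth e]; simp
      · by_cases e : s a = w
        · rw [← arr a, mul_assoc, ← e, idem, arr]; exact g _
        · rw [← arr a, mul_assoc, orth e]; simp
      · exact Submodule.mem_sup_right (sq (arrowIdeal k s t) ▸ Submodule.mul_mem_mul (r a) (r b))
    · rw [sq]
      refine Submodule.mul_le.2 fun u hu v hv => Submodule.mem_sup_right ?_
      rw [mulLeft_apply, ← mul_assoc, sq]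
      exact Submodule.mul_mem_mul (l _ _ hu) hv
  obtain ⟨z, rfl⟩ := RingQuot.mkAlgHom_surjective k _ z
  suffices h : ∀ u ∈ T, RingQuot.mkAlgHom k _ z * u ∈ T by
    simpa using h 1 (one (k := k) (s := s) (t := t) ▸ Submodule.sum_mem _ fun v _ => g _)
  induction z using FreeAlgebra.induction with
  | grade0 c => intro u hu; simpa [← Algebra.smul_def] using T.smul_mem c hu
  | grade1 x => exact fun u hu => key x hu
  | mul a b ha hb => intro u hu; rw [map_mul, mul_assoc]; exact ha _ (hb _ hu)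
  | add a b ha hb => intro u hu; rw [map_add, add_mul]; exact add_mem (ha _ hu) (hb _ hu)

end

section
variable {Λ : Type} [Ring Λ]

lemma IsSyz.pd {N M : ModuleCat.{0} Λ} (h : IsSyz N M) (n : ℕ) :
    HasProjectiveDimensionLT M (n + 2) ↔ HasProjectiveDimensionLT N (n + 1) := by
  obtain ⟨P, i, p, _, _, a, b, c, _⟩ := h
  exact (ModuleCat.shortComplex_shortExact (ModuleCat.shortComplexOfCompEqZero i p
    c.linearMap_comp_eq_zero) c a b).hasProjectiveDimensionLT_X₃_iff n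
    (inferInstanceAs (Projective (ModuleCat.of Λ P)))

lemma IsSyz.np {N M : ModuleCat.{0} Λ} (h : IsSyz N M) [Nontrivial N] :
    ¬ HasProjectiveDimensionLT M 1 := fun hp => by
  obtain ⟨P, i, p, _, _, a, b, c, d⟩ := h
  haveI : Module.Projective Λ M := (IsProjective.iff_projective (R := Λ) M).2
    (projective_iff_hasProjectiveDimensionLT_one.2 hp)
  obtain ⟨σ, hσ⟩ := Module.projective_lifting_property p (LinearMap.id : M →ₗ[Λ] M) b
  have e : ∀ m, p (σ m) = m := LinearMap.congr_fun hσ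
  have := d (range σ) (top_unique fun v _ => Submodule.mem_sup.2
    ⟨σ (p v), ⟨_, rfl⟩, v - σ (p v), by simp [e], by simp⟩)
  obtain ⟨n, hn⟩ := exists_ne (0 : N)
  obtain ⟨m, hm⟩ : i n ∈ range σ := this ▸ trivial
  have : m = 0 := by rw [← e m, hm, c.apply_apply_eq_zero]
  exact hn (a (by simp [← hm, this]))

lemma syz (e κ : Λ) (K L : Submodule Λ Λ) (he : e * e = e) (h1 : 1 - e ∈ L)
    (hk : ∀ u, u ∈ K ↔ u * κ = 0) (hκ : κ * e = κ)
    (hx : ∀ u, u * e ∈ L ↔ ∃ v, v * κ = u * e) (sq : ∀ v, v * κ * (v * κ) = 0) :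
    IsSyz (ModuleCat.of Λ (Λ ⧸ K)) (ModuleCat.of Λ (Λ ⧸ L)) := by
  have m : ∀ u, u * e ∈ Submodule.span Λ {e} := fun u => Submodule.mem_span_singleton.2 ⟨u, rfl⟩
  have mk : ∀ u, toSpanSingleton Λ Λ κ u ∈ Submodule.span Λ {e} := fun u => by
    simpa [mul_assoc, hκ] using m (u * κ)
  refine ⟨ModuleCat.of Λ (Submodule.span Λ {e}), K.liftQ (codRestrict _ _ mk)
    fun u hu => Subtype.ext ((hk u).1 hu), L.mkQ ∘ₗ Submodule.subtype _, ?_, inferInstance,
    ?_, ?_, ?_, ?_⟩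
  · refine Module.Projective.of_split (Submodule.subtype _)
      (codRestrict _ (toSpanSingleton Λ Λ e) m) (LinearMap.ext ?_)
    rintro ⟨_, h⟩
    obtain ⟨u, rfl⟩ := Submodule.mem_span_singleton.1 h
    exact Subtype.ext (by simp [mul_assoc, he])
  · exact ker_eq_bot.1 (Submodule.ker_liftQ_eq_bot _ _ _ fun u hu =>
      (hk u).2 (congrArg Subtype.val hu))
  · intro q
    obtain ⟨u, rfl⟩ := L.mkQ_surjective q
    refine ⟨⟨_, m u⟩, (Submodule.Quotient.eq L).2 ?_⟩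
    simpa [mul_sub, neg_add_eq_sub] using L.smul_mem (-u) h1
  · rintro ⟨_, h⟩
    obtain ⟨u, rfl⟩ := Submodule.mem_span_singleton.1 h
    refine ((Submodule.Quotient.mk_eq_zero L).trans (hx u)).trans ⟨?_, ?_⟩
    · rintro ⟨v, hv⟩
      exact ⟨K.mkQ v, Subtype.ext hv⟩
    · rintro ⟨q, hq⟩
      obtain ⟨v, rfl⟩ := K.mkQ_surjective q
      exact ⟨v, congrArg Subtype.val hq⟩
  · intro U hU
    obtain ⟨n, hn, ⟨_, h⟩, hz, e'⟩ := Submodule.mem_sup.1
      (hU.ge (Submodule.mem_top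
        (x := (⟨e, Submodule.mem_span_singleton_self e⟩ : Submodule.span Λ {e}))))
    obtain ⟨u, rfl⟩ := Submodule.mem_span_singleton.1 h
    obtain ⟨v, hv⟩ := (hx u).1 ((Submodule.Quotient.mk_eq_zero L).1 hz)
    have e2 : n.1 = e - v * κ := by rw [hv]; exact eq_sub_of_add_eq (congrArg Subtype.val e')
    refine top_unique ?_
    rintro ⟨_, h⟩ -
    obtain ⟨r, rfl⟩ := Submodule.mem_span_singleton.1 h
    convert U.smul_mem (r * (1 + v * κ)) hn using 1
    refine Subtype.ext ?_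
    show r * e = r * (1 + v * κ) * n.1
    rw [e2, mul_assoc, add_mul, one_mul, mul_sub, sq, mul_assoc v, hκ]
    simp

end

variable (k : Type) [Field k]

def ss : Fin 4 → Fin 3 := ![0, 1, 1, 2]
def tt : Fin 4 → Fin 3 := ![1, 1, 2, 0]

def ff : Fin 3 ⊕ Fin 4 → B k
  | inl v => ![⟨1, 0, 0, 0, 0, 0, 0, 0, 0, 0, 0⟩, ⟨0, 1, 0, 0, 0, 0, 0, 0, 0, 0, 0⟩,
      ⟨0, 0, 1, 0, 0, 0, 0, 0, 0, 0, 0⟩] v
  | inr a => ![⟨0, 0, 0, 1, 0, 0, 0, 0, 0, 0, 0⟩, ⟨0, 0, 0, 0, 1, 0, 0, 0, 0, 0, 0⟩,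
      ⟨0, 0, 0, 0, 0, 1, 0, 0, 0, 0, 0⟩, ⟨0, 0, 0, 0, 0, 0, 1, 0, 0, 0, 0⟩] a

noncomputable def θ : PathAlg k ss tt →ₐ[k] B k :=
  RingQuot.liftAlgHom k ⟨FreeAlgebra.lift k (ff k), by
    rintro _ _ (v | ⟨v, w, h⟩ | _ | a)
    · fin_cases v <;> ext <;> simp [ff]
    · fin_cases v <;> fin_cases w <;> first | exact absurd rfl h | (ext <;> simp [ff])
    · ext <;> simp [ff, Fin.sum_univ_succ]
    · fin_cases a <;> ext <;> simp [ff, ss, tt]⟩

lemma θ_gen (g) : θ k (gen k ss tt g) = ff k g := by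
  simp [θ, gen, RingQuot.liftAlgHom_mkAlgHom_apply]

lemma θ_surj : Function.Surjective (θ k) := fun u => by
  let g := gen k ss tt
  refine ⟨u.x • g (inl 0) + u.y • g (inl 1) + u.w • g (inl 2) + u.a • g (inr 0) + u.l • g (inr 1) +
    u.c • g (inr 2) + u.d • g (inr 3) + u.ca • (g (inr 2) * g (inr 0)) +
    u.cl • (g (inr 2) * g (inr 1)) + u.ad • (g (inr 0) * g (inr 3)) +
    u.cad • (g (inr 2) * g (inr 0) * g (inr 3)), ?_⟩
  simp only [map_add, map_smul, map_mul, g, θ_gen]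
  ext <;> simp [ff]

def J2 : Submodule k (B k) where
  carrier := {u | u.x = 0 ∧ u.y = 0 ∧ u.w = 0 ∧ u.a = 0 ∧ u.l = 0 ∧ u.c = 0 ∧ u.d = 0}
  add_mem' := by simp +contextual
  zero_mem' := by simp
  smul_mem' := by simp +contextual

def J1 : Submodule k (B k) where
  carrier := {u | u.x = 0 ∧ u.y = 0 ∧ u.w = 0}
  add_mem' := by simp +contextual
  zero_mem' := by simp
  smul_mem' := by simp +contextual

lemma r2 : arrowIdeal k ss tt ^ 2 ≤ (J2 k).comap (θ k).toLinearMap := by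
  have : arrowIdeal k ss tt ≤ (J1 k).comap (θ k).toLinearMap := Submodule.span_le.2 (by
    rintro _ ⟨u, a, v, rfl⟩
    show θ k _ ∈ (J1 k).carrier
    fin_cases a <;> simp [J1, θ_gen, ff])
  rw [sq]
  refine Submodule.mul_le.2 fun u hu v hv => ?_
  obtain ⟨a, b, c⟩ : (θ k u).x = 0 ∧ (θ k u).y = 0 ∧ (θ k u).w = 0 := this hu
  obtain ⟨a', b', c'⟩ : (θ k v).x = 0 ∧ (θ k v).y = 0 ∧ (θ k v).w = 0 := this hv
  show θ k _ ∈ (J2 k).carrier
  simp [J2, *]

lemma r4 : arrowIdeal k ss tt ^ 4 ≤ ker (θ k).toLinearMap := by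
  refine (pow_add _ 2 2).le.trans <| Submodule.mul_le.2 fun u hu v hv => ?_
  obtain ⟨_, _, _, _, _, _, _⟩ : θ k u ∈ (J2 k).carrier := r2 k hu
  obtain ⟨_, _, _, _, _, _, _⟩ : θ k v ∈ (J2 k).carrier := r2 k hv
  show θ k _ = 0
  ext <;> simp [*]

lemma kr : ker (θ k).toLinearMap ≤ arrowIdeal k ss tt ^ 2 := fun z hz => by
  obtain ⟨p, hp, r, hr, rfl⟩ := Submodule.mem_sup.1 (top z)
  obtain ⟨c, rfl⟩ := (Submodule.mem_span_range_iff_exists_fun k).1 hp
  have h : θ k (∑ g, c g • gen k ss tt g) ∈ (J2 k).carrier := by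
    have : θ k (∑ g, c g • gen k ss tt g) = -θ k r := eq_neg_of_add_eq_zero_left (by
      rw [← map_add]; exact hz)
    rw [this]
    exact (J2 k).neg_mem (r2 k hr)
  simp [J2, θ_gen, ff, Fin.sum_univ_succ] at h
  simpa [Fin.sum_univ_succ, h] using hr

def KK : Submodule (B k) (B k) where
  carrier := {u | u.y = 0 ∧ u.c = 0}
  add_mem' := by simp +contextual
  zero_mem' := by simp
  smul_mem' := by simp +contextual

def LL : Submodule (B k) (B k) where
  carrier := {u | u.x = 0}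
  add_mem' := by simp +contextual
  zero_mem' := by simp
  smul_mem' := by simp +contextual

lemma mK {u : B k} : u ∈ KK k ↔ u.y = 0 ∧ u.c = 0 := Iff.rfl
lemma mL {u : B k} : u ∈ LL k ↔ u.x = 0 := Iff.rfl

lemma s0 : IsSyz (ModuleCat.of (B k) (B k ⧸ KK k)) (ModuleCat.of (B k) (B k ⧸ LL k)) := by
  have o : ∀ u : B k, (1 - u).x = 1 - u.x := fun u => by simp [sub_eq_add_neg]
  refine syz (ff k (inl 0)) (ff k (inr 0)) _ _ ?_ ?_ ?_ ?_ (fun u => ⟨fun h => ?_, ?_⟩) ?_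
  · ext <;> simp [ff]
  · simp [mL, o, ff]
  · simp [mK, B.ext_iff, ff]
  · ext <;> simp [ff]
  · refine ⟨⟨0, u.a, 0, 0, 0, u.ca, 0, 0, 0, 0, 0⟩, ?_⟩
    simp [mL, ff] at h
    ext <;> simp [ff, h]
  · rintro ⟨v, h⟩
    rw [← h]
    simp [mL, ff]
  · intro v
    ext <;> simp [ff]

lemma s1 : IsSyz (ModuleCat.of (B k) (B k ⧸ KK k)) (ModuleCat.of (B k) (B k ⧸ KK k)) := by
  refine syz (ff k (inl 1)) (ff k (inr 1)) _ _ ?_ ?_ ?_ ?_ (fun u => ⟨fun h => ?_, ?_⟩) ?_
  · ext <;> simp [ff]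
  · simp [mK, sub_eq_add_neg, ff]
  · simp [mK, B.ext_iff, ff]
  · ext <;> simp [ff]
  · refine ⟨⟨0, u.l, 0, 0, 0, u.cl, 0, 0, 0, 0, 0⟩, ?_⟩
    simp [mK, ff] at h
    ext <;> simp [ff, h]
  · rintro ⟨v, h⟩
    rw [← h]
    simp [mK, ff]
  · intro v
    ext <;> simp [ff]

theorem main : ∃ (V A : Type) (_ : Fintype V) (_ : Finite A) (s t : A → V),
    (∀ u v, Relation.ReflTransGen (fun u v => ∃ a, s a = u ∧ t a = v) u v) ∧
    ∃ (Λ : Type) (_ : Ring Λ) (_ : Algebra k Λ) (θ : PathAlg k s t →ₐ[k] Λ),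
      Function.Surjective θ ∧ (∃ m ≥ 2, arrowIdeal k s t ^ m ≤ ker θ.toLinearMap) ∧
      ker θ.toLinearMap ≤ arrowIdeal k s t ^ 2 ∧
      ∃ (x : V) (Ω : ℕ → ModuleCat.{0} Λ), IsSimpleModule Λ (Ω 0) ∧
        (∃ m : Ω 0, θ (gen k s t (inl x)) • m ≠ 0) ∧ projectiveDimension (Ω 0) = ⊤ ∧
        (∀ n, IsSyz (Ω (n + 1)) (Ω n)) ∧
        ∀ n ≥ 1, ∀ m : Ω n, θ (gen k s t (inl x)) • m = 0 := by
  refine ⟨Fin 3, Fin 4, inferInstance, inferInstance, ss, tt, fun u v => ?_, B k, inferInstance,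
    inferInstance, θ k, θ_surj k, ⟨4, by norm_num, r4 k⟩, kr k, 0,
    fun n => Nat.casesOn n (.of _ (B k ⧸ LL k)) fun _ => .of _ (B k ⧸ KK k), ?_, ?_, ?_, ?_, ?_⟩
  · have e : ∀ a, Relation.ReflTransGen (fun u v => ∃ a, ss a = u ∧ tt a = v) (ss a) (tt a) :=
      fun a => .single ⟨a, rfl, rfl⟩
    fin_cases u <;> fin_cases v
    exacts [.refl, e 0, (e 0).trans (e 2), (e 2).trans (e 3), .refl, e 2, e 3, (e 3).trans (e 0), .refl]
  · refine isSimpleModule_iff_isCoatom.2 ⟨fun h => ?_, fun U hU => top_unique fun v _ => ?_⟩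
    · simpa [mL] using (h ▸ trivial : (1 : B k) ∈ LL k)
    · obtain ⟨u, hu, h⟩ := SetLike.exists_of_lt hU
      have := add_mem (U.smul_mem (algebraMap k _ (v.x / u.x)) hu)
        (hU.le (show v + -((v.x / u.x) • u) ∈ LL k by simp [mL, div_mul_cancel₀ _ h]))
      simpa [← Algebra.smul_def] using this
  · refine ⟨(LL k).mkQ 1, fun h => ?_⟩
    simpa [mL, θ_gen, ff] using (Submodule.Quotient.mk_eq_zero (LL k)).1 h
  · by_contra h
    obtain ⟨n, hn⟩ := (projectiveDimension_ne_top_iff _).1 h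
    haveI : Nontrivial (ModuleCat.of (B k) (B k ⧸ KK k)) :=
      Submodule.Quotient.nontrivial_iff.2 fun h => by simpa [mK] using (h ▸ trivial : (1 : B k) ∈ KK k)
    have : ∀ n, ¬ HasProjectiveDimensionLT (ModuleCat.of (B k) (B k ⧸ KK k)) (n + 1) := fun n => by
      induction n with
      | zero => exact (s1 k).np
      | succ n ih => exact fun h => ih (((s1 k).pd n).1 h)
    exact this n (((s0 k).pd n).1 (hasProjectiveDimensionLT_of_ge _ (n + 1) _ (by omega)))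
  · rintro (_ | n)
    exacts [s0 k, s1 k]
  · rintro (_ | n) hn m
    · omega
    obtain ⟨u, rfl⟩ := (KK k).mkQ_surjective m
    exact (Submodule.Quotient.mk_eq_zero (KK k)).2 (by simp [mK, θ_gen, ff])

end Pool.Agent.H.MP_eb0abf_al
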